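import Mathlib

set_option autoImplicit false

namespace Pool.Agent.Results.MP_5c9c6a_an.No

open Set

abbrev E (n : ℕ) := EuclideanSpace ℝ (Fin n)

variable {n : ℕ}

/-- The Hessian form of `f` at `x`. -/
noncomputable def hess (f : E n → ℝ) (x v w : E n) : ℝ := fderiv ℝ (fderiv ℝ f) x v w

def HessPos (f : E n → ℝ) : Set (E n) := {x | ∀ v ≠ 0, 0 < hess f x v v}

/-- Levels `q ≥ inf f` such that all truncations `max r f` with `r ≥ q` are convex. -/
def Levels (f : E n → ℝ) : Set ℝ :=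
  {q | (∀ b ∈ lowerBounds (range f), b ≤ q) ∧ ∀ r ≥ q, ConvexOn ℝ univ fun x => max r (f x)}

/-- The standing hypotheses, `s` being the smallest convexity level. -/
structure H (f : E n → ℝ) (s : ℝ) : Prop where
  smooth : ContDiff ℝ 2 f
  nonconvex : ¬ConvexOn ℝ univ f
  trunc : (Levels f).Nonempty
  scl : IsGLB (Levels f) s
  morse : ∀ p, gradient f p = 0 → ∀ v, (∀ w, hess f p v w = 0) → v = 0
  crit : Bornology.IsBounded {p | gradient f p = 0}
  nonpos : Bornology.IsBounded (HessPos f)ᶜ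
  img : s ∈ range f
  reg : ∀ p, f p = s → gradient f p ≠ 0
  above : {x | s < f x} ⊆ HessPos f

def f (x : E 2) : ℝ := (x 0 ^ 2 + x 1 ^ 2) ^ 2 - 2 * x 0 ^ 2 + 32 * x 1

noncomputable def P (i : Fin 2) : E 2 →L[ℝ] ℝ := EuclideanSpace.proj i

theorem hP (i : Fin 2) (x : E 2) : HasFDerivAt (fun x : E 2 => x i) (P i) x := (P i).hasFDerivAt

theorem d1 : fderiv ℝ f = fun x => (4 * x 0 * (x 0 ^ 2 + x 1 ^ 2) - 4 * x 0) • P 0 +
    (4 * x 1 * (x 0 ^ 2 + x 1 ^ 2) + 32) • P 1 := funext fun x => by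
  have := (((((hP 0 x).pow 2).add ((hP 1 x).pow 2)).pow 2).sub
    (((hP 0 x).pow 2).const_mul 2)).add ((hP 1 x).const_mul 32)
  refine (this.fderiv).trans ?_
  ext v
  simp
  ring

theorem d2 (x v w : E 2) : hess f x v w = (12 * x 0 ^ 2 + 4 * x 1 ^ 2 - 4) * v 0 * w 0 +
    8 * x 0 * x 1 * (v 0 * w 1 + v 1 * w 0) + (4 * x 0 ^ 2 + 12 * x 1 ^ 2) * v 1 * w 1 := by
  have h := ((hP 0 x).pow 2).add ((hP 1 x).pow 2)
  have := ((((((hP 0 x).const_mul 4).mul h).sub ((hP 0 x).const_mul 4))).smul_const (P 0)).add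
    (((((hP 1 x).const_mul 4).mul h).add_const 32).smul_const (P 1))
  rw [hess, d1]
  refine (congrArg (· v w) this.fderiv).trans ?_
  simp [P]
  ring

theorem grad (x y : E 2) : gradient f x = gradient f y ↔ fderiv ℝ f x = fderiv ℝ f y :=
  (InnerProductSpace.toDual ℝ (E 2)).symm.injective.eq_iff

theorem crit {p : E 2} (h : gradient f p = 0) : p 0 = 0 ∧ p 1 = -2 := by
  have h1 : fderiv ℝ f p = 0 := by simpa [gradient] using h
  rw [d1] at h1
  have h2 := congrArg (· (EuclideanSpace.single 0 1)) h1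
  have h3 := congrArg (· (EuclideanSpace.single 1 1)) h1
  simp [P] at h2 h3
  have h4 : p 0 = 0 := by
    by_contra h4
    have h5 : p 0 ^ 2 + p 1 ^ 2 = 1 := mul_left_cancel₀ h4 (by linarith)
    rw [h5] at h3
    nlinarith
  refine ⟨h4, mul_left_cancel₀ (a := (p 1 - 1) ^ 2 + 3) (by positivity) ?_⟩
  rw [h4] at h3
  linarith

theorem pos {x : E 2} (h : 1 < x 0 ^ 2 + x 1 ^ 2 ∨ 1 ≤ x 0 ^ 2) : x ∈ HessPos f := fun v hv => by
  have h1 : 0 < v 0 ^ 2 + v 1 ^ 2 := by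
    by_contra! h1
    exact hv (by ext i; fin_cases i <;> simp <;> nlinarith [sq_nonneg (v 0), sq_nonneg (v 1)])
  rw [d2]
  rcases h with h | h
  · nlinarith [sq_nonneg (x 0 * v 0 + x 1 * v 1), mul_pos h1 (sub_pos.2 h), sq_nonneg (v 1)]
  · nlinarith [sq_nonneg (x 0 * v 0 + 2 * x 1 * v 1), sq_nonneg (x 0 * v 1 + x 1 * v 0),
      mul_nonneg h1.le (sub_nonneg.2 h), sq_nonneg (x 1 * v 0), sq_nonneg (x 0 * v 0),
      sq_nonneg (x 1 * v 1), mul_nonneg (sq_nonneg (v 0)) (sub_nonneg.2 h)]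

theorem big {x : E 2} (h : 33 < f x) : 1 < x 0 ^ 2 + x 1 ^ 2 := by
  by_contra! h1
  rw [f] at h
  nlinarith [sq_nonneg (x 0), sq_nonneg (x 1), sq_nonneg (x 1 - 1)]

theorem conv {r : ℝ} (hr : 33 ≤ r) : ConvexOn ℝ univ fun x => max r (f x) := by
  refine ⟨convex_univ, fun x _ y _ a b ha hb hab => ?_⟩
  simp only [smul_eq_mul]
  have h0 : r ≤ a * max r (f x) + b * max r (f y) := by
    linear_combination mul_le_mul_of_nonneg_left (le_max_left r (f x)) ha +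
      mul_le_mul_of_nonneg_left (le_max_left r (f y)) hb - r * hab
  refine max_le h0 (le_of_not_gt fun h => ?_)
  obtain ⟨p, hp⟩ : ∃ p, p = a • x + b • y := ⟨_, rfl⟩
  rw [← hp] at h
  have h1 := big (x := p) (by linarith)
  have h2 : ∀ z : E 2, f p + (4 * p 0 * (p 0 ^ 2 + p 1 ^ 2) - 4 * p 0) * (z 0 - p 0) +
      (4 * p 1 * (p 0 ^ 2 + p 1 ^ 2) + 32) * (z 1 - p 1) ≤ max r (f z) := fun z => by
    refine le_trans ?_ (le_max_right _ _)
    simp only [f]
    nlinarith [sq_nonneg (z 0 ^ 2 + z 1 ^ 2 - p 0 ^ 2 - p 1 ^ 2), sq_nonneg (z 1 - p 1),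
      mul_nonneg (sub_pos.2 h1).le (add_nonneg (sq_nonneg (z 0 - p 0)) (sq_nonneg (z 1 - p 1)))]
  have h3 : ∀ i, a * (x i - p i) + b * (y i - p i) = 0 := fun i => by
    have : p i = a * x i + b * y i := by simp [hp]
    linear_combination -this - p i * hab
  have h4 := add_le_add (mul_le_mul_of_nonneg_left (h2 x) ha) (mul_le_mul_of_nonneg_left (h2 y) hb)
  refine h.not_ge ?_
  linear_combination h4 - f p * hab - (4 * p 0 * (p 0 ^ 2 + p 1 ^ 2) - 4 * p 0) * h3 0 -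
    (4 * p 1 * (p 0 ^ 2 + p 1 ^ 2) + 32) * h3 1

theorem nconv {r : ℝ} (hr : r < 33) {g : E 2 → ℝ} (h1 : ∀ x, f x ≤ g x)
    (h2 : ∀ x, g x ≤ max r (f x)) : ¬ConvexOn ℝ univ g := fun h => by
  obtain ⟨b, b0, b1, b2⟩ : ∃ b : ℝ, 0 ≤ b ∧ b < 1 ∧ r < b ^ 4 + 32 * b := by
    have h3 : ∀ᶠ b in nhds (1 : ℝ), r < b ^ 4 + 32 * b :=
      ContinuousAt.eventually_lt continuousAt_const (by fun_prop) (by linarith)
    obtain ⟨b, h4, h5, h6⟩ :=
      ((h3.filter_mono nhdsWithin_le_nhds).and (Ioo_mem_nhdsLT (zero_lt_one' ℝ))).exists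
    exact ⟨b, h5.le, h6, h4⟩
  obtain ⟨t, ht⟩ : ∃ t : ℝ, t ^ 2 = 1 - b ^ 2 := ⟨√(1 - b ^ 2), Real.sq_sqrt (by nlinarith)⟩
  have h3 := h.le_max_of_mem_segment (mem_univ !₂[t, b]) (mem_univ !₂[-t, b]) (z := !₂[0, b])
    ⟨1 / 2, 1 / 2, by norm_num, by norm_num, by norm_num, by
      ext i; fin_cases i <;> simp; ring⟩
  have h4 : 0 < (1 - b ^ 2) ^ 2 := pow_pos (by nlinarith) 2
  refine (((h1 _).trans h3).trans (max_le_max (h2 _) (h2 _))).not_gt ?_
  simp [f, ht]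
  constructor <;> linarith

theorem bdd {s : Set (E 2)} (h : ∀ x ∈ s, x 0 ^ 2 + x 1 ^ 2 ≤ 4) : Bornology.IsBounded s :=
  isBounded_iff_forall_norm_le.2 ⟨2, fun x hx => by
    rw [EuclideanSpace.norm_eq]
    exact Real.sqrt_le_iff.2 ⟨by norm_num, by simpa using (h x hx).trans_eq (by norm_num)⟩⟩

theorem result : ∃ (f : E 2 → ℝ) (s : ℝ), H f s ∧ ∃ p x y, x ≠ y ∧
    x ∈ connectedComponentIn (HessPos f ∩ {x | f x ≤ s}) p ∧
    y ∈ connectedComponentIn (HessPos f ∩ {x | f x ≤ s}) p ∧ gradient f x = gradient f y := by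
  have h0 : f !₂[0, 1] = 33 := by simp [f]; norm_num
  have h1 : 33 ∈ Levels f := ⟨fun b hb => hb ⟨_, h0⟩, fun r => conv⟩
  refine ⟨f, 33, ⟨by unfold f; fun_prop, nconv (r := 0) (by norm_num) (fun _ => le_rfl)
    fun _ => le_max_right _ _, ⟨_, h1⟩, IsLeast.isGLB ⟨h1, fun q hq => le_of_not_gt fun h =>
      nconv h (fun _ => le_max_right _ _) (fun _ => le_rfl) (hq.2 q le_rfl)⟩, fun p hp v hv => ?_,
    bdd fun p hp => ?_, bdd fun p hp => ?_, ⟨_, h0⟩, fun p hp h => ?_,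
    fun x hx => pos (.inl (big hx))⟩, !₂[1, 0], !₂[1, 0], !₂[-1, 0], fun h => ?_, ?_⟩
  · by_contra h
    exact (pos (.inl (by rw [(crit hp).1, (crit hp).2]; norm_num)) v h).ne' (hv v)
  · rw [(crit hp).1, (crit hp).2]; norm_num
  · by_contra! h
    exact hp (pos (.inl (by linarith)))
  · rw [f, (crit h).1, (crit h).2] at hp; norm_num at hp
  · have := congrArg (· 0) h
    norm_num at this
  have key : ∀ x : E 2, x 0 ^ 2 ≤ 1 → -2 ≤ x 1 → x 1 ≤ 0 → x 0 ^ 2 = 1 ∨ x 1 = -2 →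
      x ∈ HessPos f ∩ {x | f x ≤ 33} := fun x h1 h2 h3 h4 =>
    ⟨pos (h4.elim (.inr ·.ge) fun h => .inl (by rw [h]; nlinarith)), by
      have : x 1 ^ 2 ≤ 4 := by nlinarith
      change f x ≤ 33
      rw [f]
      nlinarith [sq_nonneg (x 0), sq_nonneg (x 1)]⟩
  have seg : ∀ x y : E 2, (∀ a b : ℝ, 0 ≤ a → 0 ≤ b → a + b = 1 →
      a • x + b • y ∈ HessPos f ∩ {x | f x ≤ 33}) → JoinedIn (HessPos f ∩ {x | f x ≤ 33}) x y :=
    fun x y h => JoinedIn.of_segment_subset (by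
      rintro _ ⟨a, b, ha, hb, hab, rfl⟩; exact h a b ha hb hab)
  have j := ((seg !₂[1, 0] !₂[1, -2] fun a b ha hb h => key _ (by simp [h]) (by simp; linarith)
    (by simpa) (by simp [h])).trans (seg _ !₂[-1, -2] fun a b ha hb h => key _
      (by simp [abs_le]; constructor <;> linarith) (by simp; linarith) (by simp; linarith)
      (.inr (by simp; linarith)))).trans (seg _ !₂[-1, 0] fun a b ha hb h => key _
        (by simp [← neg_add, h]) (by simp; linarith) (by simpa)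
        (by simp [← neg_add, h]))
  refine ⟨mem_connectedComponentIn j.source_mem, (isPathConnected_pathComponentIn
    j.source_mem).isConnected.isPreconnected.subset_connectedComponentIn
    (mem_pathComponentIn_self j.source_mem) pathComponentIn_subset j, ?_⟩
  rw [grad, d1]
  simp

end Pool.Agent.Results.MP_5c9c6a_an.No
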